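import Mathlib

set_option autoImplicit false

open Finset
open scoped symmDiff

namespace Pool.Agent.H78.GC

variable {V : Type} [Fintype V] [DecidableEq V]

/-- derivative in the direction `v` -/
def Dv (v : V) (f : Finset V → ZMod 2) (U : Finset V) : ZMod 2 := f (U ∆ {v}) + f U

/-- degree at most `r` -/
def degLE : ℕ → (Finset V → ZMod 2) → Prop
  | 0, f => ∀ U W, f U = f W
  | (r + 1), f => ∀ v, degLE r (Dv v f)

omit [Fintype V] in
lemma const_of_inv (f : Finset V → ZMod 2) (h : ∀ v U, f (U ∆ {v}) = f U) (U : Finset V) :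
    f U = f ∅ := by
  induction U using Finset.induction_on with
  | empty => rfl
  | insert a s ha ih =>
    rw [← ih, ← h a s]
    congr 1
    ext x
    simp only [mem_insert, Finset.mem_symmDiff, mem_singleton]
    by_cases hx : x = a
    · subst hx; simp [ha]
    · simp [hx]

omit [Fintype V] in
lemma sd_sd (U : Finset V) (v : V) : (U ∆ {v}) ∆ {v} = U := by
  rw [symmDiff_assoc, symmDiff_self]; simp

lemma rm (r : ℕ) : ∀ f : Finset V → ZMod 2, degLE r f → (∃ U, f U ≠ 0) →
    2 ^ Fintype.card V ≤ 2 ^ r * (univ.filter (fun U => f U ≠ 0)).card := by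
  induction r with
  | zero =>
    rintro f hf ⟨U, hU⟩
    have : univ.filter (fun U => f U ≠ 0) = univ := by
      ext W
      simp only [mem_filter, mem_univ, true_and, iff_true]
      rw [hf W U]; exact hU
    rw [this, card_univ, Fintype.card_finset]; simp
  | succ r ih =>
    rintro f hf ⟨U, hU⟩
    by_cases h : ∃ v W, Dv v f W ≠ 0
    · obtain ⟨v, hW⟩ := h
      have h1 := ih (Dv v f) (hf v) hW
      have h2 : (univ.filter (fun U => Dv v f U ≠ 0)).card ≤
          2 * (univ.filter (fun U => f U ≠ 0)).card := by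
        have h3 : univ.filter (fun U => Dv v f U ≠ 0) ⊆ univ.filter (fun U => f U ≠ 0) ∪
           (univ.filter (fun U => f U ≠ 0)).image (fun U => U ∆ {v}) := by
          intro W hW
          simp only [mem_filter, mem_univ, true_and, mem_union, mem_image] at hW ⊢
          by_cases h4 : f W = 0
          · right
            refine ⟨W ∆ {v}, ?_, sd_sd W v⟩
            intro h5
            apply hW
            unfold Dv
            rw [h4, h5]; rfl
          · exact Or.inl h4
        refine (card_le_card h3).trans ((card_union_le _ _).trans ?_)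
        have := card_image_le (s := univ.filter (fun U => f U ≠ 0)) (f := fun U => U ∆ {v})
        omega
      calc 2 ^ Fintype.card V ≤ 2 ^ r * (univ.filter (fun U => Dv v f U ≠ 0)).card := h1
        _ ≤ 2 ^ r * (2 * (univ.filter (fun U => f U ≠ 0)).card) := by gcongr
        _ = _ := by ring
    · push Not at h
      have hinv : ∀ v U, f (U ∆ {v}) = f U := by
        intro v W
        have := h v W
        unfold Dv at this
        revert this
        generalize f (W ∆ {v}) = a
        generalize f W = b
        revert a b; decide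
      have : univ.filter (fun U => f U ≠ 0) = univ := by
        ext W
        simp only [mem_filter, mem_univ, true_and, iff_true]
        rw [const_of_inv f hinv W, ← const_of_inv f hinv U]; exact hU
      rw [this, card_univ, Fintype.card_finset]
      exact Nat.le_mul_of_pos_left _ (by positivity)

omit [Fintype V] in
lemma deg_add (r : ℕ) : ∀ f g : Finset V → ZMod 2, degLE r f → degLE r g →
    degLE r (fun U => f U + g U) := by
  induction r with
  | zero => intro f g hf hg U W; simp only; rw [hf U W, hg U W]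
  | succ r ih =>
    intro f g hf hg v
    have := ih _ _ (hf v) (hg v)
    convert this using 1
    funext U
    unfold Dv; ring

omit [Fintype V] in
lemma deg_tr (r : ℕ) : ∀ (f : Finset V → ZMod 2) (w : V), degLE r f →
    degLE r (fun U => f (U ∆ {w})) := by
  induction r with
  | zero => intro f w hf U W; exact hf _ _
  | succ r ih =>
    intro f w hf v
    have := ih _ w (hf v)
    convert this using 1
    funext U
    unfold Dv
    simp only
    rw [symmDiff_right_comm]

omit [Fintype V] in
lemma deg_zero (r : ℕ) : degLE r (fun _ : Finset V => (0 : ZMod 2)) := by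
  induction r with
  | zero => intro U W; rfl
  | succ r ih =>
    intro v
    have key : Dv v (fun _ : Finset V => (0 : ZMod 2)) = fun _ => 0 := by
      funext U; unfold Dv; simp
    rw [key]; exact ih

omit [Fintype V] in
lemma deg_const (r : ℕ) (c : ZMod 2) : degLE r (fun _ : Finset V => c) := by
  cases r with
  | zero => intro U W; rfl
  | succ r =>
    intro v
    have key : Dv v (fun _ : Finset V => c) = fun _ => 0 := by
      funext U; unfold Dv
      show c + c = 0
      clear v U
      revert c; decide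
    rw [key]; exact deg_zero r

omit [Fintype V] in
lemma deg_cmul (r : ℕ) (c : ZMod 2) : ∀ f : Finset V → ZMod 2, degLE r f →
    degLE r (fun U => c * f U) := by
  induction r with
  | zero => intro f hf U W; simp only; rw [hf U W]
  | succ r ih =>
    intro f hf v
    convert ih _ (hf v) using 1
    funext U
    unfold Dv; ring

omit [Fintype V] in
lemma deg_mul : ∀ (a b : ℕ) (f g : Finset V → ZMod 2), degLE a f → degLE b g →
    degLE (a + b) (fun U => f U * g U)
  | 0, b, f, g, hf, hg => by
      have : (fun U => f U * g U) = fun U => f ∅ * g U := by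
        funext U; rw [hf U ∅]
      rw [this, zero_add]
      exact deg_cmul b _ g hg
  | (a + 1), 0, f, g, hf, hg => by
      have : (fun U => f U * g U) = fun U => g ∅ * f U := by
        funext U; rw [hg U ∅, mul_comm]
      rw [this, add_zero]
      exact deg_cmul (a + 1) _ f hf
  | (a + 1), (b + 1), f, g, hf, hg => by
      intro v
      have h1 := deg_mul a (b + 1) (Dv v f) (fun U => g (U ∆ {v})) (hf v) (deg_tr _ _ _ hg)
      have h2 := deg_mul (a + 1) b f (Dv v g) hf (hg v)
      have e1 : a + (b + 1) = a + 1 + b := by ring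
      rw [e1] at h1
      have h3 := deg_add _ _ _ h1 h2
      have key : Dv v (fun U => f U * g U) =
          fun U => Dv v f U * g (U ∆ {v}) + f U * Dv v g U := by
        funext U
        unfold Dv
        simp only
        generalize f (U ∆ {v}) = x1
        generalize f U = x2
        generalize g (U ∆ {v}) = x3
        generalize g U = x4
        revert x1 x2 x3 x4; decide
      show degLE (a + 1 + b) (Dv v (fun U => f U * g U))
      rw [key]; exact h3

/-- indicator of `i` -/
def xi (i : V) (U : Finset V) : ZMod 2 := if i ∈ U then 1 else 0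

omit [Fintype V] in
lemma deg_xi (i : V) : degLE 1 (xi i) := by
  intro v U W
  unfold Dv xi
  by_cases hv : i = v
  · subst hv
    simp only [Finset.mem_symmDiff, mem_singleton]
    by_cases h1 : i ∈ U <;> by_cases h2 : i ∈ W <;> simp [h1, h2]
  · simp only [Finset.mem_symmDiff, mem_singleton]
    have : ∀ T : Finset V, ((if i ∈ T then (1 : ZMod 2) else 0) + if i ∈ T then 1 else 0) = 0 := by
      intro T; split_ifs <;> decide
    simp [hv, this]

/-- edges -/
abbrev Eg (n : ℕ) := {p : Fin n × Fin n // p.1 < p.2}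

/-- number of the edges of `S` inside `U` modulo 2 -/
def qq {n : ℕ} (S : Finset (Eg n)) (U : Finset (Fin n)) : ZMod 2 :=
  ∑ e ∈ S, xi e.1.1 U * xi e.1.2 U

lemma deg_qq {n : ℕ} (S : Finset (Eg n)) : degLE 2 (qq S) := by
  classical
  induction S using Finset.induction_on with
  | empty => unfold qq; simpa using deg_zero (V := Fin n) 2
  | insert a s ha ih =>
    have h1 := deg_mul 1 1 _ _ (deg_xi (a.1.1)) (deg_xi (a.1.2))
    have h2 := deg_add 2 _ _ h1 ih
    convert h2 using 1
    funext U
    unfold qq
    rw [sum_insert ha]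

lemma qq_empty {n : ℕ} (S : Finset (Eg n)) : qq S ∅ = 0 := by
  unfold qq xi; simp

lemma qq_single {n : ℕ} (S : Finset (Eg n)) (u : Fin n) : qq S {u} = 0 := by
  unfold qq xi
  apply sum_eq_zero
  intro e _
  have := e.2
  by_cases h1 : e.1.1 = u
  · by_cases h2 : e.1.2 = u
    · rw [h1, h2] at this; exact absurd this (lt_irrefl _)
    · simp [h2]
  · simp [h1]

lemma qq_pair {n : ℕ} (S : Finset (Eg n)) (e : Eg n) (he : e ∈ S) :
    qq S {e.1.1, e.1.2} = 1 := by
  classical
  unfold qq
  rw [sum_eq_single_of_mem e he]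
  · unfold xi; simp
  · intro b _ hb
    unfold xi
    have hb2 := b.2
    have he2 := e.2
    by_contra hcon
    apply hb
    have h1 : b.1.1 ∈ ({e.1.1, e.1.2} : Finset (Fin n)) := by
      by_contra h; simp [h] at hcon
    have h2 : b.1.2 ∈ ({e.1.1, e.1.2} : Finset (Fin n)) := by
      by_contra h; simp [h] at hcon
    simp only [mem_insert, mem_singleton] at h1 h2
    apply Subtype.ext
    apply Prod.ext
    · rcases h1 with h1 | h1
      · exact h1
      · rcases h2 with h2 | h2
        · rw [h1, h2] at hb2; exact absurd (hb2.trans he2) (lt_irrefl _)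
        · rw [h1, h2] at hb2; exact absurd hb2 (lt_irrefl _)
    · rcases h2 with h2 | h2
      · rcases h1 with h1 | h1
        · rw [h1, h2] at hb2; exact absurd hb2 (lt_irrefl _)
        · rw [h1, h2] at hb2; exact absurd (hb2.trans he2) (lt_irrefl _)
      · exact h2

/-- sign -/
def sg (z : ZMod 2) : ℤ := if z = 0 then 1 else -1

lemma sg_add : ∀ a b : ZMod 2, sg (a + b) = sg a * sg b := by decide

/-- the character sum -/
def ZZ {n : ℕ} (S : Finset (Eg n)) : ℤ := ∑ U : Finset (Fin n), sg (qq S U)

lemma ZZ_lower {n : ℕ} (S : Finset (Eg n)) : -(2 : ℤ) ^ n ≤ 4 * ZZ S := by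
  classical
  rcases S.eq_empty_or_nonempty with rfl | ⟨e, he⟩
  · have : ZZ (∅ : Finset (Eg n)) = 2 ^ n := by
      unfold ZZ qq sg; simp
    rw [this]
    have : (0 : ℤ) < 2 ^ n := by positivity
    linarith
  set u := e.1.1 with hu
  set v := e.1.2 with hv
  have huv : u ≠ v := ne_of_lt e.2
  set q := qq S with hq
  have hD : degLE 1 (Dv u q) := deg_qq S u
  have hsd : (({v} : Finset (Fin n)) ∆ {u}) = {u, v} := by
    ext x
    simp only [Finset.mem_symmDiff, mem_insert, mem_singleton]
    by_cases h1 : x = u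
    · subst h1; simp [huv]
    · simp [h1]
  have hDne : Dv u q {v} ≠ 0 := by
    unfold Dv
    rw [hsd, hq, qq_single, qq_pair S e he]; decide
  have h1 := rm 1 (Dv u q) hD ⟨_, hDne⟩
  rw [Fintype.card_fin, pow_one] at h1
  -- the cubic function
  have hp : degLE 3 (fun U => (1 + Dv u q U) * (1 + q U)) := by
    have a1 := deg_add 1 _ _ (deg_const 1 1) hD
    have a2 := deg_add 2 _ _ (deg_const 2 1) (deg_qq S)
    exact deg_mul 1 2 _ _ a1 a2
  have h2 := rm 3 _ hp ⟨∅, by
    have e1 : (∅ : Finset (Fin n)) ∆ {u} = {u} := by simp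
    unfold Dv
    rw [e1, hq, qq_single, qq_empty]; decide⟩
  rw [Fintype.card_fin] at h2
  -- split the sum
  have hsplit : ZZ S = ∑ U ∈ univ.filter (fun U => Dv u q U ≠ 0), sg (q U) +
      ∑ U ∈ univ.filter (fun U => ¬ Dv u q U ≠ 0), sg (q U) := by
    unfold ZZ
    rw [sum_filter_add_sum_filter_not]
  have hz : ∑ U ∈ univ.filter (fun U => Dv u q U ≠ 0), sg (q U) = 0 := by
    apply Finset.sum_involution (fun U _ => U ∆ {u})
    · intro U hU
      have h3 : Dv u q U ≠ 0 := (mem_filter.mp hU).2
      unfold Dv at h3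
      revert h3
      generalize q (U ∆ {u}) = a
      generalize q U = b
      revert a b; decide
    · intro U hU _ h4
      have : u ∈ U ∆ {u} ↔ u ∈ U := by rw [h4]
      simp [Finset.mem_symmDiff] at this
    · intro U hU
      exact sd_sd U u
    · intro U hU
      rw [mem_filter] at hU ⊢
      refine ⟨mem_univ _, ?_⟩
      have h3 := hU.2
      unfold Dv at h3 ⊢
      rw [sd_sd, add_comm]; exact h3
  have hw : ∀ U : Finset (Fin n), sg (q U) = 2 * (if q U = 0 then 1 else 0) - 1 := by
    intro U; unfold sg; split_ifs <;> norm_num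
  have h3 : ∑ U ∈ univ.filter (fun U => ¬ Dv u q U ≠ 0), sg (q U) =
      2 * ((univ.filter (fun U => (1 + Dv u q U) * (1 + q U) ≠ 0)).card : ℤ) -
        ((univ.filter (fun U => ¬ Dv u q U ≠ 0)).card : ℤ) := by
    simp only [hw]
    rw [sum_sub_distrib, ← mul_sum]
    simp only [sum_const, nsmul_eq_mul, mul_one, sum_boole]
    rw [filter_filter]
    congr 4
    ext U
    simp only [mem_filter, mem_univ, true_and]
    generalize Dv u q U = a
    generalize q U = b
    revert a b; decide
  have h4 : (univ.filter (fun U => Dv u q U ≠ 0)).card +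
      (univ.filter (fun U => ¬ Dv u q U ≠ 0)).card = 2 ^ n := by
    rw [card_filter_add_card_filter_not]
    simp
  have h5 : ((2 : ℤ)) ^ n ≤ 2 * ((univ.filter (fun U => Dv u q U ≠ 0)).card : ℤ) := by
    exact_mod_cast h1
  have h6 : ((2 : ℤ)) ^ n ≤ 2 ^ 3 *
      ((univ.filter (fun U => (1 + Dv u q U) * (1 + q U) ≠ 0)).card : ℤ) := by
    exact_mod_cast h2
  have h7 : ((univ.filter (fun U => Dv u q U ≠ 0)).card : ℤ) +
      ((univ.filter (fun U => ¬ Dv u q U ≠ 0)).card : ℤ) = 2 ^ n := by
    exact_mod_cast h4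
  rw [hsplit, hz, h3]
  linarith

/-- character -/
def chi {n : ℕ} (S A : Finset (Eg n)) : ℤ := ∏ e ∈ S, (if e ∈ A then -1 else 1)

/-- edges of the clique on `U` -/
def KK {n : ℕ} (U : Finset (Fin n)) : Finset (Eg n) :=
  univ.filter (fun e => e.1.1 ∈ U ∧ e.1.2 ∈ U)

lemma chi_KK {n : ℕ} (S : Finset (Eg n)) (U : Finset (Fin n)) : chi S (KK U) = sg (qq S U) := by
  classical
  unfold chi qq
  induction S using Finset.induction_on with
  | empty => simp [sg]
  | insert a s ha ih =>
    rw [prod_insert ha, sum_insert ha, sg_add, ih]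
    congr 1
    unfold KK xi sg
    simp only [mem_filter, mem_univ, true_and]
    by_cases h1 : a.1.1 ∈ U <;> by_cases h2 : a.1.2 ∈ U <;> simp [h1, h2]

lemma chi_mul {n : ℕ} (S A B : Finset (Eg n)) : chi S (A ∆ B) = chi S A * chi S B := by
  unfold chi
  rw [← prod_mul_distrib]
  apply prod_congr rfl
  intro e _
  simp only [Finset.mem_symmDiff]
  by_cases h1 : e ∈ A <;> by_cases h2 : e ∈ B <;> simp [h1, h2]

lemma chi_orth {n : ℕ} (A : Finset (Eg n)) :
    ∑ S : Finset (Eg n), chi S A = if A = ∅ then 2 ^ Fintype.card (Eg n) else 0 := by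
  classical
  have h := Finset.prod_one_add (s := (univ : Finset (Eg n)))
    (f := fun e => (if e ∈ A then (-1 : ℤ) else 1))
  rw [powerset_univ] at h
  unfold chi
  rw [← h]
  split_ifs with hA
  · subst hA
    simp
  · obtain ⟨e, he⟩ := Finset.nonempty_iff_ne_empty.mpr hA
    apply prod_eq_zero (mem_univ e)
    simp [he]

lemma card_small {n : ℕ} : ((univ : Finset (Finset (Fin n))).filter (fun U => ¬ 2 ≤ U.card)).card =
    n + 1 := by
  classical
  have : (univ : Finset (Finset (Fin n))).filter (fun U => ¬ 2 ≤ U.card) =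
      powersetCard 0 univ ∪ powersetCard 1 univ := by
    ext U
    simp only [mem_filter, mem_univ, true_and, mem_union, mem_powersetCard, subset_univ]
    omega
  rw [this, card_union_of_disjoint, card_powersetCard, card_powersetCard]
  · simp; ring
  · rw [disjoint_left]
    intro U h1 h2
    rw [mem_powersetCard] at h1 h2
    omega

/-- Delsarte's inequality -/
theorem main {n : ℕ} (F : Finset (Finset (Eg n)))
    (hF : ∀ A ∈ F, ∀ B ∈ F, ∀ U : Finset (Fin n), 2 ≤ U.card → A ∆ B ≠ KK U) :
    5 * 2 ^ n * (F.card : ℤ) ≤ (2 ^ n + 4 * (n + 1)) * 2 ^ Fintype.card (Eg n) := by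
  classical
  set N := Fintype.card (Eg n) with hN
  set ff : Finset (Eg n) → ℤ := fun S => ∑ A ∈ F, chi S A with hff
  have hsq : ∀ (T : Finset (Eg n)), ∑ S : Finset (Eg n), ff S ^ 2 * chi S T =
      ∑ A ∈ F, ∑ B ∈ F, ∑ S : Finset (Eg n), chi S ((A ∆ B) ∆ T) := by
    intro T
    have h1 : ∀ S, ff S ^ 2 * chi S T = ∑ A ∈ F, ∑ B ∈ F, chi S ((A ∆ B) ∆ T) := by
      intro S
      simp only [hff, chi_mul]
      rw [sq, sum_mul_sum, sum_mul]
      apply sum_congr rfl
      intro A _
      rw [sum_mul]
    simp only [h1]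
    rw [sum_comm]
    apply sum_congr rfl
    intro A _
    rw [sum_comm]
  have hU : ∀ U : Finset (Fin n), 2 ≤ U.card → ∑ S : Finset (Eg n), ff S ^ 2 * chi S (KK U) = 0 := by
    intro U hU
    rw [hsq]
    apply sum_eq_zero
    intro A hA
    apply sum_eq_zero
    intro B hB
    rw [chi_orth, if_neg]
    intro h
    exact hF A hA B hB U hU (symmDiff_eq_bot.mp h)
  have h1 : ∑ S : Finset (Eg n), ff S ^ 2 = 2 ^ N * F.card := by
    have h2 := hsq ∅
    have h3 : ∀ S : Finset (Eg n), chi S ∅ = 1 := by intro S; simp [chi]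
    simp only [h3, mul_one] at h2
    rw [h2]
    have h4 : ∀ A ∈ F, ∑ B ∈ F, ∑ S : Finset (Eg n), chi S ((A ∆ B) ∆ ∅) = 2 ^ N := by
      intro A hA
      rw [sum_eq_single_of_mem A hA]
      · rw [chi_orth, if_pos]
        simp
      · intro B _ hBA
        rw [chi_orth, if_neg]
        intro h
        rw [← Finset.bot_eq_empty, symmDiff_bot, symmDiff_eq_bot] at h
        exact hBA h.symm
    rw [sum_congr rfl h4]
    simp [mul_comm]
  have h2 : ff ∅ = F.card := by simp [hff, chi]
  have hZ : ∑ S : Finset (Eg n), ff S ^ 2 * ZZ S = (n + 1) * (2 ^ N * F.card) := by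
    have e1 : ∀ S : Finset (Eg n), ff S ^ 2 * ZZ S =
        ∑ U : Finset (Fin n), ff S ^ 2 * chi S (KK U) := by
      intro S
      unfold ZZ
      rw [mul_sum]
      simp only [chi_KK]
    simp only [e1]
    rw [sum_comm, ← sum_filter_add_sum_filter_not univ (fun U : Finset (Fin n) => 2 ≤ U.card)]
    rw [sum_eq_zero (fun U hU' => hU U (mem_filter.mp hU').2), zero_add]
    have e2 : ∀ U ∈ univ.filter (fun U : Finset (Fin n) => ¬ 2 ≤ U.card),
        ∑ S : Finset (Eg n), ff S ^ 2 * chi S (KK U) = 2 ^ N * F.card := by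
      intro U hU'
      have h3 := (mem_filter.mp hU').2
      have h4 : KK U = (∅ : Finset (Eg n)) := by
        unfold KK
        rw [filter_eq_empty_iff]
        rintro e - ⟨h5, h6⟩
        have h7 : e.1.1 ≠ e.1.2 := ne_of_lt e.2
        have h8 : ({e.1.1, e.1.2} : Finset (Fin n)) ⊆ U := by
          intro x hx
          simp only [mem_insert, mem_singleton] at hx
          rcases hx with rfl | rfl <;> assumption
        have h9 := card_le_card h8
        rw [card_pair h7] at h9
        exact h3 h9
      rw [h4, ← h1]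
      apply sum_congr rfl
      intro S _
      simp [chi]
    rw [sum_congr rfl e2, sum_const, card_small]
    simp
  -- lower bound
  have hlow : 4 * ∑ S : Finset (Eg n), ff S ^ 2 * ZZ S ≥
      5 * 2 ^ n * (F.card : ℤ) ^ 2 - 2 ^ n * (2 ^ N * F.card) := by
    rw [← h1, mul_sum, mul_sum]
    rw [← add_sum_erase univ _ (mem_univ (∅ : Finset (Eg n))),
      ← add_sum_erase univ (fun i => 2 ^ n * ff i ^ 2) (mem_univ (∅ : Finset (Eg n)))]
    have e1 : ∑ x ∈ univ.erase (∅ : Finset (Eg n)), 4 * (ff x ^ 2 * ZZ x) ≥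
        - ∑ x ∈ univ.erase (∅ : Finset (Eg n)), 2 ^ n * ff x ^ 2 := by
      rw [← sum_neg_distrib, ge_iff_le]
      apply sum_le_sum
      intro S _
      have := ZZ_lower S
      nlinarith [sq_nonneg (ff S)]
    have e2 : ZZ (∅ : Finset (Eg n)) = 2 ^ n := by unfold ZZ qq sg; simp
    rw [h2, e2]
    linarith
  rw [hZ] at hlow
  by_cases hc : (F.card : ℤ) = 0
  · rw [hc]; simp; positivity
  · have hpos : (0 : ℤ) < F.card := by
      have : (0 : ℤ) ≤ F.card := Nat.cast_nonneg _
      omega
    have h5 : (F.card : ℤ) * (5 * 2 ^ n * (F.card : ℤ)) ≤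
        (F.card : ℤ) * ((2 ^ n + 4 * (n + 1)) * 2 ^ N) := by nlinarith
    exact le_of_mul_le_mul_left h5 hpos

end Pool.Agent.H78.GC
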